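import Pool.Agent.R951.BRW.Shape

/-!
# Competing branching random walks with equal shapes need not coexist

In every dimension `d ≥ 1` there are two reproduction laws with the same asymptotic shape such that
almost surely one of the two colours (blue) occupies only finitely many sites.

Both laws have the same displacement distribution (independent coordinates, each equal to
`-1, 0, 1` with probabilities `1/4, 1/2, 1/4`) and the same mean number of children `3`. Red
particles have exactly three children. The number of children of a blue particle has a very heavy
tail: in the first `n` generations nobody has more than `8 ^ n` children, and this truncation lowers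
the mean by `c n^(-1/4)`. Hence blue is late by a time of order `n^(3/4)`, whereas red is late by a
time of order at most `n^(1/2) log n`.
-/

set_option autoImplicit false

open MeasureTheory

namespace Pool.Agent.Results.MP_1cd8c4_pr.EqualShapes

open Pool.Agent.R951.BRW

/-- **Equal shapes do not imply coexistence.** For every dimension `d ≥ 1` there are two
reproduction laws `Rr`, `Rb` with the same asymptotic shape `A` such that, for every tie-breaking
rule, almost surely only finitely many sites are coloured blue; in particular coexistence has
probability `0`. -/
theorem result : ∀ (d : ℕ) (hd : 0 < d), ∃ (Rr Rb : Law d) (A : Set (Fin d → ℝ)),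
    IsShape Rr A ∧ IsShape Rb A ∧ ∀ tie : Omega d × Omega d → Site d → Prop,
      (∀ᵐ ω ∂(P₀ Rr Rb), (blueSites hd tie ω).Finite) ∧
        P₀ Rr Rb (Coexistence hd tie) = 0 :=
  fun d hd => ⟨red d, blue d, shapeSet d, isShape nice_red, isShape nice_blue,
    fun tie => ⟨blue_finite hd tie, no_coexistence hd tie⟩⟩

end Pool.Agent.Results.MP_1cd8c4_pr.EqualShapes
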